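import Mathlib

open Set

namespace Pool.Agent.MP_c3dba2_gt

universe u v w

/-- A correspondence between `X` and `Y`: both projections are onto. -/
def IsCorr {X : Type u} {Y : Type v} (R : Set (X × Y)) : Prop :=
  (∀ x, ∃ y, (x, y) ∈ R) ∧ (∀ y, ∃ x, (x, y) ∈ R)

/-- The distortion of a relation. -/
noncomputable def dis {X : Type u} {Y : Type v} [MetricSpace X] [MetricSpace Y]
    (R : Set (X × Y)) : ℝ :=
  sSup {r | ∃ p ∈ R, ∃ q ∈ R, r = |dist p.1 q.1 - dist p.2 q.2|}

/-- The Gromov-Hausdorff distance, defined as half the infimum of the distortions of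
correspondences. -/
noncomputable def dGH (X : Type u) (Y : Type v) [MetricSpace X] [MetricSpace Y] : ℝ :=
  (1 / 2) * sInf {r | ∃ R : Set (X × Y), IsCorr R ∧ r = dis R}

/-- An optimal correspondence. -/
def IsOptimal {X : Type u} {Y : Type v} [MetricSpace X] [MetricSpace Y]
    (R : Set (X × Y)) : Prop :=
  IsCorr R ∧ (1 / 2) * dis R = dGH X Y

/-- The projection `e_{ij}` of a subset of `X_0 × X_1 × X_2` to `X_i × X_j`. -/
def proj {X : Fin 3 → Type u} (i j : Fin 3) (R : Set (∀ k, X k)) : Set (X i × X j) :=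
  (fun x => (x i, x j)) '' R

/-- Some `R ⊆ X_0 × X_1 × X_2` has all its projections `e_{ij}(R)` optimal. -/
def HasTriple (X : Fin 3 → Type u) [∀ i, MetricSpace (X i)] : Prop :=
  ∃ R : Set (∀ k, X k), ∀ i j, IsOptimal (proj i j R)

/-- `X_0, X_1, X_2` embed isometrically into one compact metric space with all pairwise
Hausdorff distances equal to the Gromov-Hausdorff distances. -/
def HasRealisation (X : Fin 3 → Type u) [∀ i, MetricSpace (X i)] : Prop :=
  ∃ (Z : Type w) (_ : MetricSpace Z) (_ : CompactSpace Z) (φ : ∀ i, X i → Z),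
    (∀ i, Isometry (φ i)) ∧
      ∀ i j, Metric.hausdorffDist (range (φ i)) (range (φ j)) = dGH (X i) (X j)

/-- Statement (C). -/
def StatementC : Prop :=
  ∀ (X : Fin 3 → Type u) [∀ i, MetricSpace (X i)] [∀ i, CompactSpace (X i)]
    [∀ i, Nonempty (X i)], HasTriple X

/-- Statement (H). -/
def StatementH : Prop :=
  ∀ (X : Fin 3 → Type u) [∀ i, MetricSpace (X i)] [∀ i, CompactSpace (X i)]
    [∀ i, Nonempty (X i)], HasRealisation.{u, u} X

/-! ### Finite metric spaces with integer distances -/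

/-- A metric with values in the natural numbers on `Fin n`. -/
structure IntMet (n : ℕ) where
  d : Fin n → Fin n → ℕ
  self : ∀ i, d i i = 0
  pos : ∀ i j, d i j = 0 → i = j
  symm : ∀ i j, d i j = d j i
  tri : ∀ i j k, d i k ≤ d i j + d j k

/-- The points of the finite metric space given by an integer valued metric. -/
structure Pt {n : ℕ} (M : IntMet n) : Type u where
  val : Fin n

variable {n m : ℕ}

theorem Pt.val_injective (M : IntMet n) : Function.Injective (Pt.val : Pt.{u} M → Fin n) := by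
  rintro ⟨a⟩ ⟨b⟩ h
  exact congrArg Pt.mk h

instance (M : IntMet n) : Finite (Pt.{u} M) := Finite.of_injective _ (Pt.val_injective M)

noncomputable instance (M : IntMet n) : MetricSpace (Pt.{u} M) where
  dist x y := (M.d x.val y.val : ℝ)
  dist_self x := by
    show ((M.d x.val x.val : ℕ) : ℝ) = 0
    rw [M.self]
    exact Nat.cast_zero
  dist_comm x y := by
    show ((M.d x.val y.val : ℕ) : ℝ) = (M.d y.val x.val : ℝ)
    rw [M.symm]
  dist_triangle x y z := by
    show ((M.d x.val z.val : ℕ) : ℝ) ≤ (M.d x.val y.val : ℝ) + (M.d y.val z.val : ℝ)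
    exact_mod_cast M.tri _ _ _
  eq_of_dist_eq_zero := by
    intro x y h
    apply Pt.val_injective
    apply M.pos
    have h' : ((M.d x.val y.val : ℕ) : ℝ) = 0 := h
    exact_mod_cast h'

theorem Pt.dist_eq (M : IntMet n) (x y : Pt.{u} M) : dist x y = (M.d x.val y.val : ℝ) := rfl

instance (M : IntMet (n + 1)) : Nonempty (Pt.{u} M) := ⟨⟨0⟩⟩

section dis

variable {X : Type u} {Y : Type v} [MetricSpace X] [MetricSpace Y]

theorem dis_nonneg (R : Set (X × Y)) : 0 ≤ dis R := by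
  apply Real.sSup_nonneg
  rintro _ ⟨p, _, q, _, rfl⟩
  exact abs_nonneg _

theorem dis_le {R : Set (X × Y)} {C : ℝ} (hC : 0 ≤ C)
    (h : ∀ p ∈ R, ∀ q ∈ R, |dist p.1 q.1 - dist p.2 q.2| ≤ C) : dis R ≤ C := by
  apply Real.sSup_le _ hC
  rintro _ ⟨p, hp, q, hq, rfl⟩
  exact h p hp q hq

theorem le_dis [Finite X] [Finite Y] {R : Set (X × Y)} {p q : X × Y} (hp : p ∈ R) (hq : q ∈ R) :
    |dist p.1 q.1 - dist p.2 q.2| ≤ dis R := by
  apply le_csSup
  · have : {r | ∃ p ∈ R, ∃ q ∈ R, r = |dist p.1 q.1 - dist p.2 q.2|} ⊆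
        range (fun z : (X × Y) × (X × Y) => |dist z.1.1 z.2.1 - dist z.1.2 z.2.2|) := by
      rintro _ ⟨p, _, q, _, rfl⟩
      exact ⟨(p, q), rfl⟩
    exact ((finite_range _).subset this).bddAbove
  · exact ⟨p, hp, q, hq, rfl⟩

theorem dGH_le {R : Set (X × Y)} (hR : IsCorr R) : dGH X Y ≤ (1 / 2) * dis R := by
  unfold dGH
  apply mul_le_mul_of_nonneg_left _ (by norm_num)
  apply csInf_le
  · refine ⟨0, ?_⟩
    rintro _ ⟨R, _, rfl⟩
    exact dis_nonneg R
  · exact ⟨R, hR, rfl⟩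

theorem le_dGH {c : ℝ} {R₀ : Set (X × Y)} (h₀ : IsCorr R₀)
    (h : ∀ R : Set (X × Y), IsCorr R → c ≤ dis R) : (1 / 2) * c ≤ dGH X Y := by
  unfold dGH
  apply mul_le_mul_of_nonneg_left _ (by norm_num)
  apply le_csInf
  · exact ⟨_, R₀, h₀, rfl⟩
  · rintro _ ⟨R, hR, rfl⟩
    exact h R hR

end dis

/-- The relation given by a map of index sets. -/
def graphRel {M : IntMet n} {N : IntMet m} (σ : Fin n → Fin m) : Set (Pt.{u} M × Pt.{v} N) :=
  {p | p.2.val = σ p.1.val}

theorem graphRel_isCorr {M : IntMet n} {N : IntMet m} {σ : Fin n → Fin m}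
    (hσ : Function.Surjective σ) : IsCorr (graphRel σ : Set (Pt.{u} M × Pt.{v} N)) := by
  refine ⟨fun x => ⟨⟨σ x.val⟩, rfl⟩, fun y => ?_⟩
  obtain ⟨a, ha⟩ := hσ y.val
  exact ⟨⟨a⟩, ha.symm⟩

theorem abs_natCast_sub_le {a b c : ℕ} : |(a : ℝ) - b| ≤ c ↔ a ≤ b + c ∧ b ≤ a + c := by
  rw [abs_le]
  constructor
  · rintro ⟨h1, h2⟩
    constructor
    · have : (a : ℝ) ≤ b + c := by linarith
      exact_mod_cast this
    · have : (b : ℝ) ≤ a + c := by linarith
      exact_mod_cast this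
  · rintro ⟨h1, h2⟩
    have h1' : (a : ℝ) ≤ b + c := by exact_mod_cast h1
    have h2' : (b : ℝ) ≤ a + c := by exact_mod_cast h2
    constructor <;> linarith

theorem graphRel_dis_le {M : IntMet n} {N : IntMet m} {σ : Fin n → Fin m} {c : ℕ}
    (h : ∀ a b, M.d a b ≤ N.d (σ a) (σ b) + c ∧ N.d (σ a) (σ b) ≤ M.d a b + c) :
    dis (graphRel σ : Set (Pt.{u} M × Pt.{v} N)) ≤ c := by
  apply dis_le (Nat.cast_nonneg c)
  rintro ⟨x, x'⟩ hp ⟨y, y'⟩ hq
  have hp' : x'.val = σ x.val := hp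
  have hq' : y'.val = σ y.val := hq
  show |dist x y - dist x' y'| ≤ c
  rw [Pt.dist_eq, Pt.dist_eq, hp', hq', abs_natCast_sub_le]
  exact h _ _

theorem dGH_le_of_map {M : IntMet n} {N : IntMet m} (σ : Fin n → Fin m) {c : ℕ}
    (hσ : Function.Surjective σ)
    (h : ∀ a b, M.d a b ≤ N.d (σ a) (σ b) + c ∧ N.d (σ a) (σ b) ≤ M.d a b + c) :
    dGH (Pt.{u} M) (Pt.{v} N) ≤ (1 / 2) * c := by
  refine le_trans (dGH_le (graphRel_isCorr hσ)) ?_
  exact mul_le_mul_of_nonneg_left (graphRel_dis_le h) (by norm_num)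

end Pool.Agent.MP_c3dba2_gt
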